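import Pool.Agent.H.MP_360b3f_an.C

set_option autoImplicit false
open MeasureTheory Set

namespace Pool.Agent.Results.MP_360b3f_an.Blowup

/-- The heat kernel on the line. -/
noncomputable def heat (τ z : ℝ) : ℝ := Real.exp (-z ^ 2 / (4 * τ)) / √(4 * Real.pi * τ)

theorem result : ∃ f : ℝ → ℝ, ContDiff ℝ (⊤ : ℕ∞) f ∧ (∀ s, 0 ≤ f s) ∧
    ∀ K : ℝ → ℝ, ContDiff ℝ (⊤ : ℕ∞) K → HasCompactSupport K → (∀ y, 0 ≤ K y) →
      ∃ u₀ : ℝ → ℝ, Continuous u₀ ∧ HasCompactSupport u₀ ∧ (∀ x, 0 ≤ u₀ x) ∧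
        ∃ T : ℝ, 0 < T ∧ ¬ ∃ u v : ℝ × ℝ → ℝ,
          ContinuousOn u (Icc 0 T ×ˢ univ) ∧ ContinuousOn v (Icc 0 T ×ˢ univ) ∧
          (∃ M : ℝ, ∀ t ∈ Icc 0 T, ∀ x, u (t, x) ≤ M) ∧
          ∀ t ∈ Icc 0 T, ∀ x, 0 ≤ u (t, x) ∧ 0 ≤ v (t, x) ∧
            u (t, x) = u₀ x + ∫ s in (0 : ℝ)..t, (v (s, x) * f (u (s, x)) -
              ((∫ y, K y) * u (s, x) - ∫ y, K y * u (s, x - y))) ∧
            v (t, x) = 1 - ∫ s in (0 : ℝ)..t,
              ∫ y, heat (t - s) (x - y) * (v (s, y) * f (u (s, y))) := by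
  open Pool.Agent.H.MP_360b3f_an in
  refine ⟨f, f_smooth, f_nonneg, fun K hK hc h0 => ?_⟩
  obtain ⟨κ1, h1⟩ := hK.continuous.bounded_above_of_compact_support hc
  obtain ⟨κ2, h2⟩ := ContDiff.lipschitzWith_of_hasCompactSupport hc hK (by simp)
  obtain ⟨R, hR, h3⟩ := hc.isCompact.isBounded.exists_pos_norm_lt
  open Pool.Agent.H.MP_360b3f_an in
  obtain ⟨T, hT, hcore⟩ := core (K := K) (κ := max κ1 κ2) (R := R)
    ⟨hK.continuous, hK.continuous.integrable_of_hasCompactSupport hc, h0,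
      fun y => ((le_abs_self _).trans (h1 y)).trans (le_max_left _ _),
      fun x y => (h2.dist_le_mul x y).trans
        (mul_le_mul_of_nonneg_right (le_max_right _ _) (abs_nonneg _)),
      fun y hy => image_eq_zero_of_notMem_tsupport fun hy' => (h3 y hy').not_ge hy, hR.le⟩
  open Pool.Agent.H.MP_360b3f_an in
  refine ⟨u0 (T / 10), u0_cont (by positivity), u0_supp (by positivity), fun x => le_max_left _ _,
    T, hT, ?_⟩
  rintro ⟨u, v, cu, cv, ⟨M, hM⟩, h⟩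
  let c : ℝ → ℝ := fun t => max 0 (min t T)
  have hc1 : ∀ t, c t ∈ Icc 0 T := fun t => ⟨le_max_left _ _, max_le hT.le (min_le_right _ _)⟩
  have hc2 : ∀ t ∈ Icc 0 T, c t = t := fun t ht => by
    simp only [c]; rw [min_eq_left ht.2, max_eq_right ht.1]
  have hc3 : Continuous fun z : ℝ × ℝ => (c z.1, z.2) := by simp only [c]; fun_prop
  open Pool.Agent.H.MP_360b3f_an in
  refine hcore M (fun z => u (c z.1, z.2)) (fun z => v (c z.1, z.2))
    ⟨cu.comp_continuous hc3 fun z => ⟨hc1 _, trivial⟩,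
      cv.comp_continuous hc3 fun z => ⟨hc1 _, trivial⟩, fun z => (h _ (hc1 _) _).1,
      fun z => hM _ (hc1 _) _, fun z => (h _ (hc1 _) _).2.1, fun z => ?_, fun t ht x => ?_,
      fun t ht x => ?_⟩
  · rw [(h _ (hc1 _) _).2.2.2, sub_le_self_iff]
    exact intervalIntegral.integral_nonneg (hc1 _).1 fun s hs => integral_nonneg fun y =>
      mul_nonneg (Pool.Agent.H.MP_360b3f_an.G_nonneg _ _)
        (mul_nonneg (h s ⟨hs.1, hs.2.trans (hc1 _).2⟩ y).2.1 (Pool.Agent.H.MP_360b3f_an.f_nonneg _))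
  · rw [hc2 t ht, (h t ht x).2.2.1]
    congr 1
    refine intervalIntegral.integral_congr fun s hs => ?_
    rw [uIcc_of_le ht.1] at hs
    simp only [hc2 s ⟨hs.1, hs.2.trans ht.2⟩]
  · rw [hc2 t ht, (h t ht x).2.2.2]
    congr 1
    refine intervalIntegral.integral_congr fun s hs => ?_
    rw [uIcc_of_le ht.1] at hs
    simp only [hc2 s ⟨hs.1, hs.2.trans ht.2⟩]
    rfl

end Pool.Agent.Results.MP_360b3f_an.Blowup
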